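import Mathlib
import Pool.Agent.X329.Triv.Pos

/-!
# A family with birational fibres without a birational trivialization at a point

Let `k` be an algebraically closed field of characteristic `≠ 2`. The family over the affine line
with fibres `X_b ⊆ P ^ 3`: `x_0 ^ 2 x_3 ^ 4 = q ^ 3 - x_3 ^ 4 q`, `q = x_1 ^ 2 - b x_2 x_3`, is a flat
family of irreducible reduced hypersurfaces of degree six, which are all birational to the product of
the elliptic curve `E`: `p ^ 2 = q ^ 3 - q` and the projective line. At the origin the family has no
birational trivialization: the fibre over the origin is the pull back of `E` under `q = x ^ 2` times a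
line, the curve `p ^ 2 = x ^ 6 - x ^ 2` is birational to `E` (which has an endomorphism of degree
two), but the function `x` on it does not extend to the constant part `E` of the neighbouring fibres.
-/

set_option autoImplicit false

namespace Pool.Agent.Results.MP_45f016_ag.NoTrivialization

open Pool.Agent.X329.Triv MvPolynomial

/-- The family `fib b ⊆ P ^ 3`, `b ∈ k`, over the affine line: its equation `poly b` is the value at
`b` of a polynomial over `k[T]`; it is flat; the equations `poly b` are homogeneous of degree six and
irreducible, so that all fibres are irreducible (and reduced) surfaces; the fibres are birational to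
each other; there is a birational trivialization at every point `b ≠ 0`; there is none at the
origin, for every projective variety `Z` (every subset `Z` of a projective space).

In the last part the base change `π : B' → k` runs through all nonconstant morphisms from irreducible
affine varieties with the origin in their image. This covers the finite surjective morphisms
`π : B' → U` of the question, since an open subset `U` of the affine line is affine and a variety that
is finite over it is affine. -/
theorem result (k : Type*) [Field k] [IsAlgClosed k] (h2 : (2 : k) ≠ 0) :
    (∀ b : k, map (Polynomial.evalRingHom b) (poly (Polynomial.X : Polynomial k)) = poly b) ∧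
    Module.Flat (Polynomial k) (MvPolynomial (Fin 4) (Polynomial k) ⧸
      Ideal.span {poly (Polynomial.X : Polynomial k)}) ∧
    (∀ b : k, (poly b).IsHomogeneous 6 ∧ Irreducible (poly b)) ∧
    (∀ b c : k, AreBirational (fib b) (fib c)) ∧
    (∀ b : k, b ≠ 0 → HasTrivialization (fib (k := k)) (fib 1) b) ∧
    ∀ (m : ℕ) (Z : Set (PP k m)), ¬ HasTrivialization (fib (k := k)) Z 0 := by
  refine ⟨fun b => ?_, flat_family h2, fun b => ⟨poly_homog b, ?_⟩, birational_fib h2,
    hasTrivialization_of_ne, fun m Z => not_hasTrivialization h2 Z⟩
  · rw [map_poly]
    simp
  · exact irreducible_poly h2 (RingHom.id k) b

end Pool.Agent.Results.MP_45f016_ag.NoTrivialization
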